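import Mathlib

/-!
# A separable regular space without isolated points that is not base resolvable

Letters: `K` consists of the 0-1 sequences and one extra letter `none`.  The space `Z` consists of
all sequences of letters (closed subset) and of countably many clopen copies of the rationals, one
for each finite square approximation of a sequence of letters.  A basic neighbourhood `cyl x n` of a
sequence `x` consists of all sequences agreeing with `x` below `n` and of the copies for
approximations of size at least `n` whose first `n` rows approximate the first `n` letters of `x`.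
If `x` has the letter `none` infinitely often, then the copies for the approximations of `x` itself
are removed.  The members of the base that contain sequences are the sets `V x m r`: the union of
the clopen sets given by `x` below `m` followed by the letter `some r` or by the letter `none`, minus
the removed set at the sequence `pt x m r`, which is `x` below `m`, then `none`, then the sequence
coded by `r`.  Given a partition `B0`, `B1` of the base choose `z` recursively: `z m = none` if all
`V z m r` are in `B0`, and `z m = some r` with `V z m r` not in `B0` otherwise.  If `z` has the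
letter `none` infinitely often then `B1` fails at `z`, otherwise `B0` fails at `z`.
-/

set_option autoImplicit false

namespace Pool.Agent.Results.MP_12e723_gt.SeparableCounterexample

open Set TopologicalSpace

/-- The alphabet: reals coded as 0-1 sequences, and one extra letter `none`. -/
abbrev K := Option (ℕ → Bool)

/-- The sequences of letters. -/
abbrev X0 := ℕ → K

/-- Finite square approximations of elements of `X0`. -/
abbrev Om := Σ n : ℕ, (Fin n → Option (Fin n → Bool))

/-- Restriction of a letter. -/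
def res (n : ℕ) (k : K) : Option (Fin n → Bool) := k.map (fun c i => c i)

/-- The points of the space. -/
def Z : Type := X0 ⊕ (Om × ℚ)

/-- A point of the first kind. -/
def L (x : X0) : Z := Sum.inl x

/-- A point of the second kind. -/
def R (σ : Om) (q : ℚ) : Z := Sum.inr (σ, q)

/-- Letter `none` occurs infinitely often. -/
def Irr (x : X0) : Prop := ∀ n, ∃ m, n ≤ m ∧ x m = none

/-- Basic clopen sets. -/
def cyl (x : X0) (n : ℕ) : Set Z :=
  {p | (∃ y, p = L y ∧ ∀ j < n, y j = x j) ∨
    ∃ σ q, p = R σ q ∧ n ≤ σ.1 ∧ ∀ j : Fin σ.1, (j : ℕ) < n → σ.2 j = res σ.1 (x j)}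

/-- The set removed at an irregular point. -/
def Sx (x : X0) : Set Z :=
  {p | ∃ σ q, p = R σ q ∧ Irr x ∧ ∀ j : Fin σ.1, σ.2 j = res σ.1 (x j)}

theorem L_inj {x y : X0} (h : L x = L y) : x = y := Sum.inl.inj h

theorem R_inj {σ τ : Om} {q r : ℚ} (h : R σ q = R τ r) : σ = τ ∧ q = r := by
  have := Sum.inr.inj h
  exact Prod.mk.inj this

theorem L_ne_R {x : X0} {σ : Om} {q : ℚ} (h : L x = R σ q) : False := by
  cases h

theorem mem_cyl_L {x y : X0} {n : ℕ} : L y ∈ cyl x n ↔ ∀ j < n, y j = x j := by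
  constructor
  · rintro (⟨y', h, h'⟩ | ⟨σ, q, h, _⟩)
    · rw [L_inj h]; exact h'
    · exact (L_ne_R h).elim
  · intro h
    exact Or.inl ⟨y, rfl, h⟩

theorem mem_cyl_R {x : X0} {n : ℕ} {σ : Om} {q : ℚ} :
    R σ q ∈ cyl x n ↔ n ≤ σ.1 ∧ ∀ j : Fin σ.1, (j : ℕ) < n → σ.2 j = res σ.1 (x j) := by
  constructor
  · rintro (⟨y', h, h'⟩ | ⟨τ, r, h, h'⟩)
    · exact (L_ne_R h.symm).elim
    · obtain ⟨rfl, rfl⟩ := R_inj h
      exact h'
  · intro h
    exact Or.inr ⟨σ, q, rfl, h⟩

theorem L_notMem_Sx {x y : X0} : L y ∉ Sx x := by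
  rintro ⟨σ, q, h, _⟩
  exact L_ne_R h

theorem mem_Sx_R {x : X0} {σ : Om} {q : ℚ} :
    R σ q ∈ Sx x ↔ Irr x ∧ ∀ j : Fin σ.1, σ.2 j = res σ.1 (x j) := by
  constructor
  · rintro ⟨τ, r, h, h'⟩
    obtain ⟨rfl, rfl⟩ := R_inj h
    exact h'
  · intro h
    exact ⟨σ, q, rfl, h⟩

theorem cyl_anti {x : X0} {m n : ℕ} (h : m ≤ n) : cyl x n ⊆ cyl x m := by
  rintro p (⟨y, rfl, hy⟩ | ⟨σ, q, rfl, h1, h2⟩)
  · exact mem_cyl_L.2 fun j hj => hy j (hj.trans_le h)
  · exact mem_cyl_R.2 ⟨h.trans h1, fun j hj => h2 j (hj.trans_le h)⟩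

theorem cyl_congr {x y : X0} {n : ℕ} (h : ∀ j < n, y j = x j) : cyl y n = cyl x n := by
  ext p
  constructor
  · rintro (⟨z, rfl, hz⟩ | ⟨σ, q, rfl, h1, h2⟩)
    · exact mem_cyl_L.2 fun j hj => (hz j hj).trans (h j hj)
    · exact mem_cyl_R.2 ⟨h1, fun j hj => by rw [h2 j hj, h j hj]⟩
  · rintro (⟨z, rfl, hz⟩ | ⟨σ, q, rfl, h1, h2⟩)
    · exact mem_cyl_L.2 fun j hj => (hz j hj).trans (h j hj).symm
    · exact mem_cyl_R.2 ⟨h1, fun j hj => by rw [h2 j hj, h j hj]⟩

/-- The topology. -/
instance : TopologicalSpace Z where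
  IsOpen U := (∀ x : X0, L x ∈ U → ∃ n, cyl x n \ Sx x ⊆ U) ∧
    ∀ σ : Om, IsOpen {q : ℚ | R σ q ∈ U}
  isOpen_univ := ⟨fun x _ => ⟨0, subset_univ _⟩, fun σ => by simp⟩
  isOpen_inter := by
    rintro U V ⟨h1, h2⟩ ⟨h3, h4⟩
    refine ⟨fun x hx => ?_, fun σ => (h2 σ).inter (h4 σ)⟩
    obtain ⟨m, hm⟩ := h1 x hx.1
    obtain ⟨n, hn⟩ := h3 x hx.2
    refine ⟨max m n, fun p hp => ⟨hm ⟨cyl_anti (le_max_left _ _) hp.1, hp.2⟩,
      hn ⟨cyl_anti (le_max_right _ _) hp.1, hp.2⟩⟩⟩
  isOpen_sUnion := by
    intro s hs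
    constructor
    · rintro x ⟨U, hU, hx⟩
      obtain ⟨n, hn⟩ := (hs U hU).1 x hx
      exact ⟨n, hn.trans (subset_sUnion_of_mem hU)⟩
    · intro σ
      have : {q : ℚ | R σ q ∈ ⋃₀ s} = ⋃ U ∈ s, {q : ℚ | R σ q ∈ U} := by
        ext q; simp
      rw [this]
      exact isOpen_biUnion fun U hU => (hs U hU).2 σ

theorem isOpen_iff' {U : Set Z} : IsOpen U ↔ (∀ x : X0, L x ∈ U → ∃ n, cyl x n \ Sx x ⊆ U) ∧
    ∀ σ : Om, IsOpen {q : ℚ | R σ q ∈ U} := Iff.rfl

theorem isOpen_cyl (x : X0) (n : ℕ) : IsOpen (cyl x n) := by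
  rw [isOpen_iff']
  refine ⟨fun y hy => ⟨n, ?_⟩, fun σ => ?_⟩
  · rw [cyl_congr (mem_cyl_L.1 hy)]
    exact sdiff_subset
  · by_cases h : n ≤ σ.1 ∧ ∀ j : Fin σ.1, (j : ℕ) < n → σ.2 j = res σ.1 (x j)
    · convert isOpen_univ
      ext q
      simp only [mem_ofPred_eq, mem_univ, iff_true]
      exact mem_cyl_R.2 h
    · convert isOpen_empty
      ext q
      simp only [mem_ofPred_eq, mem_empty_iff_false, iff_false]
      exact fun h' => h (mem_cyl_R.1 h')

/-- Different letters have different restrictions. -/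
theorem exists_res {k l : K} (h : k ≠ l) : ∃ n0, ∀ n, n0 ≤ n → res n k ≠ res n l := by
  cases k with
  | none =>
    cases l with
    | none => exact absurd rfl h
    | some c => exact ⟨0, fun n _ h' => by simp [res] at h'⟩
  | some d =>
    cases l with
    | none => exact ⟨0, fun n _ h' => by simp [res] at h'⟩
    | some c =>
      have : d ≠ c := fun h' => h (by rw [h'])
      obtain ⟨i, hi⟩ := Function.ne_iff.1 this
      refine ⟨i + 1, fun n hn h' => hi ?_⟩
      simp only [res, Option.map_some, Option.some.injEq] at h'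
      exact congrFun h' ⟨i, by omega⟩

theorem isClosed_cyl (x : X0) (n : ℕ) : IsClosed (cyl x n) := by
  rw [← isOpen_compl_iff, isOpen_iff']
  refine ⟨fun y hy => ?_, fun σ => ?_⟩
  · have : ¬ ∀ j < n, y j = x j := fun h => hy (mem_cyl_L.2 h)
    push Not at this
    obtain ⟨j, hj, hne⟩ := this
    obtain ⟨n0, hn0⟩ := exists_res hne
    refine ⟨max n0 (j + 1), ?_⟩
    rintro p ⟨hp, _⟩ hp'
    rcases hp with ⟨z, rfl, hz⟩ | ⟨σ, q, rfl, h1, h2⟩
    · exact hne ((hz j (by omega)).symm.trans (mem_cyl_L.1 hp' j hj))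
    · obtain ⟨h3, h4⟩ := mem_cyl_R.1 hp'
      have hjσ : j < σ.1 := by omega
      have e1 := h2 ⟨j, hjσ⟩ (by simp)
      have e2 := h4 ⟨j, hjσ⟩ hj
      exact hn0 σ.1 (by omega) (e1.symm.trans e2)
  · by_cases h : n ≤ σ.1 ∧ ∀ j : Fin σ.1, (j : ℕ) < n → σ.2 j = res σ.1 (x j)
    · convert isOpen_empty
      ext q
      simp only [mem_ofPred_eq, mem_empty_iff_false, iff_false, mem_compl_iff, not_not]
      exact mem_cyl_R.2 h
    · convert isOpen_univ
      ext q
      simp only [mem_ofPred_eq, mem_univ, iff_true, mem_compl_iff]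
      exact fun h' => h (mem_cyl_R.1 h')

theorem isOpen_Sx (x : X0) : IsOpen (Sx x) := by
  rw [isOpen_iff']
  refine ⟨fun y hy => absurd hy L_notMem_Sx, fun σ => ?_⟩
  by_cases h : Irr x ∧ ∀ j : Fin σ.1, σ.2 j = res σ.1 (x j)
  · convert isOpen_univ
    ext q
    simp only [mem_ofPred_eq, mem_univ, iff_true]
    exact mem_Sx_R.2 h
  · convert isOpen_empty
    ext q
    simp only [mem_ofPred_eq, mem_empty_iff_false, iff_false]
    exact fun h' => h (mem_Sx_R.1 h')

theorem isClosed_Sx (x : X0) : IsClosed (Sx x) := by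
  rw [← isOpen_compl_iff, isOpen_iff']
  refine ⟨fun y _ => ?_, fun σ => ?_⟩
  · by_cases hxy : y = x
    · subst hxy
      exact ⟨0, fun p hp => hp.2⟩
    obtain ⟨j, hne⟩ := Function.ne_iff.1 hxy
    obtain ⟨n0, hn0⟩ := exists_res hne
    refine ⟨max n0 (j + 1), ?_⟩
    rintro p ⟨hp, _⟩ hp'
    rcases hp with ⟨z, rfl, hz⟩ | ⟨σ, q, rfl, h1, h2⟩
    · exact L_notMem_Sx hp'
    · obtain ⟨_, h4⟩ := mem_Sx_R.1 hp'
      have hjσ : j < σ.1 := by omega
      have e1 := h2 ⟨j, hjσ⟩ (by simp)
      have e2 := h4 ⟨j, hjσ⟩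
      exact hn0 σ.1 (by omega) (e1.symm.trans e2)
  · by_cases h : Irr x ∧ ∀ j : Fin σ.1, σ.2 j = res σ.1 (x j)
    · convert isOpen_empty
      ext q
      simp only [mem_ofPred_eq, mem_empty_iff_false, iff_false, mem_compl_iff, not_not]
      exact mem_Sx_R.2 h
    · convert isOpen_univ
      ext q
      simp only [mem_ofPred_eq, mem_univ, iff_true, mem_compl_iff]
      exact fun h' => h (mem_Sx_R.1 h')

theorem mem_self (x : X0) (n : ℕ) : L x ∈ cyl x n \ Sx x :=
  ⟨mem_cyl_L.2 fun _ _ => rfl, L_notMem_Sx⟩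

theorem Z_cases (p : Z) : (∃ x, p = L x) ∨ ∃ σ q, p = R σ q := by
  rcases p with x | ⟨σ, q⟩
  · exact Or.inl ⟨x, rfl⟩
  · exact Or.inr ⟨σ, q, rfl⟩


/-- The slice of the second kind. -/
theorem isOpen_slice {σ : Om} {V : Set ℚ} (hV : IsOpen V) :
    IsOpen {p : Z | ∃ q ∈ V, p = R σ q} := by
  rw [isOpen_iff']
  refine ⟨?_, fun τ => ?_⟩
  · rintro x ⟨q, _, h⟩
    exact (L_ne_R h).elim
  · by_cases h : τ = σ
    · subst h
      convert hV
      ext q
      constructor
      · rintro ⟨r, hr, h⟩
        rw [(R_inj h).2]; exact hr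
      · intro h
        exact ⟨q, h, rfl⟩
    · convert isOpen_empty
      ext q
      simp only [mem_ofPred_eq, mem_empty_iff_false, iff_false]
      rintro ⟨r, _, h'⟩
      exact h (R_inj h').1

theorem isClosed_slice {σ : Om} {V : Set ℚ} (hV : IsClosed V) :
    IsClosed {p : Z | ∃ q ∈ V, p = R σ q} := by
  rw [← isOpen_compl_iff, isOpen_iff']
  refine ⟨fun x _ => ⟨σ.1 + 1, ?_⟩, fun τ => ?_⟩
  · rintro p ⟨hp, _⟩ ⟨q, _, rfl⟩
    have := (mem_cyl_R.1 hp).1
    omega
  · by_cases h : τ = σ
    · subst h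
      convert hV.isOpen_compl
      ext q
      simp only [mem_ofPred_eq, mem_compl_iff]
      refine not_congr ⟨?_, ?_⟩
      · rintro ⟨r, hr, h⟩
        rw [(R_inj h).2]; exact hr
      · intro h
        exact ⟨q, h, rfl⟩
    · convert isOpen_univ
      ext q
      simp only [mem_ofPred_eq, mem_compl_iff, mem_univ, iff_true]
      rintro ⟨r, _, h'⟩
      exact h (R_inj h').1

theorem exists_clopen (p : Z) (U : Set Z) (hU : IsOpen U) (hp : p ∈ U) :
    ∃ V, IsOpen V ∧ p ∈ V ∧ ∃ W, IsClosed W ∧ V ⊆ W ∧ W ⊆ U := by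
  rcases Z_cases p with ⟨x, rfl⟩ | ⟨σ, q, rfl⟩
  · obtain ⟨n, hn⟩ := (isOpen_iff'.1 hU).1 x hp
    refine ⟨cyl x n \ Sx x, (isOpen_cyl x n).sdiff (isClosed_Sx x), mem_self x n,
      cyl x n \ Sx x, ?_, subset_rfl, hn⟩
    exact (isClosed_cyl x n).sdiff (isOpen_Sx x)
  · have h1 : IsOpen {q : ℚ | R σ q ∈ U} := (isOpen_iff'.1 hU).2 σ
    obtain ⟨V, ⟨hV1, hV2⟩, hV3⟩ := (closed_nhds_basis q).mem_iff.1 (h1.mem_nhds hp)
    obtain ⟨T, hT1, hT2, hT3⟩ := mem_nhds_iff.1 hV1
    refine ⟨{p : Z | ∃ q ∈ T, p = R σ q}, isOpen_slice hT2, ⟨q, hT3, rfl⟩,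
      {p : Z | ∃ q ∈ V, p = R σ q}, isClosed_slice hV2, ?_, ?_⟩
    · rintro p ⟨q, hq, rfl⟩
      exact ⟨q, hT1 hq, rfl⟩
    · rintro p ⟨q, hq, rfl⟩
      exact hV3 hq

instance : RegularSpace Z := by
  refine RegularSpace.of_exists_mem_nhds_isClosed_subset ?_
  intro p s hs
  obtain ⟨U, hU1, hU2, hU3⟩ := mem_nhds_iff.1 hs
  obtain ⟨V, hV, hpV, W, hW, hVW, hWU⟩ := exists_clopen p U hU2 hU3
  exact ⟨W, Filter.mem_of_superset (hV.mem_nhds hpV) hVW, hW, hWU.trans hU1⟩

instance : T1Space Z := by
  constructor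
  intro p
  rcases Z_cases p with ⟨x, rfl⟩ | ⟨σ, q, rfl⟩
  · rw [← isOpen_compl_iff, isOpen_iff']
    refine ⟨fun y hy => ?_, fun σ => ?_⟩
    · have hne : y ≠ x := fun h => hy (by rw [h]; rfl)
      obtain ⟨j, hj⟩ := Function.ne_iff.1 hne
      refine ⟨j + 1, ?_⟩
      rintro p ⟨hp, _⟩ hp'
      rw [mem_singleton_iff] at hp'
      subst hp'
      exact hj ((mem_cyl_L.1 hp) j (by omega)).symm
    · convert isOpen_univ
      ext q
      simp only [mem_ofPred_eq, mem_compl_iff, mem_singleton_iff, mem_univ, iff_true]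
      exact fun h => L_ne_R h.symm
  · convert isClosed_slice (σ := σ) (isClosed_singleton (x := q)) using 1
    ext p
    simp

instance : T3Space Z := ⟨⟩

/-- Every basic neighbourhood contains a point of the second kind. -/
theorem exists_R (x : X0) (n : ℕ) : ∃ σ q, R σ q ∈ cyl x n \ Sx x := by
  let k : K := match x n with
    | none => some fun _ => true
    | some _ => none
  have hk : ∀ m, res m k ≠ res m (x n) := by
    intro m
    simp only [k]
    cases h : x n with
    | none => simp [res]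
    | some c => simp [res]
  refine ⟨⟨n + 1, fun j => if (j : ℕ) < n then res (n + 1) (x j) else res (n + 1) k⟩, 0, ?_, ?_⟩
  · refine mem_cyl_R.2 ⟨by simp, fun j hj => ?_⟩
    simp [hj]
  · rw [mem_Sx_R]
    rintro ⟨_, h⟩
    have := h ⟨n, by simp⟩
    simp only [lt_irrefl, if_false] at this
    exact hk _ this

instance : SeparableSpace Z := by
  refine ⟨⟨range fun p : Om × ℚ => R p.1 p.2, countable_range _, ?_⟩⟩
  intro p
  rw [mem_closure_iff]
  intro U hU hp
  rcases Z_cases p with ⟨x, rfl⟩ | ⟨σ, q, rfl⟩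
  · obtain ⟨n, hn⟩ := (isOpen_iff'.1 hU).1 x hp
    obtain ⟨σ, q, h⟩ := exists_R x n
    exact ⟨R σ q, hn h, ⟨(σ, q), rfl⟩⟩
  · exact ⟨R σ q, hp, ⟨(σ, q), rfl⟩⟩

theorem perfect (p : Z) : ¬ IsOpen ({p} : Set Z) := by
  intro hp
  rcases Z_cases p with ⟨x, rfl⟩ | ⟨σ, q, rfl⟩
  · obtain ⟨n, hn⟩ := (isOpen_iff'.1 hp).1 x rfl
    obtain ⟨σ, q, h⟩ := exists_R x n
    exact L_ne_R (hn h).symm
  · have h1 : IsOpen {r : ℚ | R σ r ∈ ({R σ q} : Set Z)} := (isOpen_iff'.1 hp).2 σ
    have h2 : {r : ℚ | R σ r ∈ ({R σ q} : Set Z)} = {q} := by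
      ext r
      simp only [mem_ofPred_eq, mem_singleton_iff]
      exact ⟨fun h => (R_inj h).2, fun h => by rw [h]⟩
    rw [h2] at h1
    exact not_isOpen_singleton q h1

/-- A surjection from the letters `some c` onto the sequences. -/
theorem exists_e : ∃ e : (ℕ → Bool) → X0, Function.Surjective e := by
  let f : X0 → (ℕ → Bool) := fun x i => match x (Nat.unpair i).1 with
    | none => false
    | some c => match (Nat.unpair i).2 with
      | 0 => true
      | j + 1 => c j
  have hf : Function.Injective f := by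
    intro x y h
    funext m
    have h0 := congrFun h (Nat.pair m 0)
    have h1 : ∀ j, f x (Nat.pair m (j + 1)) = f y (Nat.pair m (j + 1)) :=
      fun j => congrFun h _
    simp only [f, Nat.unpair_pair] at h0 h1
    cases hx : x m with
    | none =>
      cases hy : y m with
      | none => rfl
      | some d => rw [hx, hy] at h0; simp at h0
    | some c =>
      cases hy : y m with
      | none => rw [hx, hy] at h0; simp at h0
      | some d =>
        congr 1
        funext j
        have := h1 j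
        rw [hx, hy] at this
        simpa using this
  exact ⟨Function.invFun f, Function.invFun_surjective hf⟩

/-- The coding of sequences by letters. -/
noncomputable def e : (ℕ → Bool) → X0 := exists_e.choose

theorem e_surj : Function.Surjective e := exists_e.choose_spec

/-- The sequence that agrees with `x` below `m`, then has the letter `none`, then continues with
`e r`. -/
noncomputable def pt (x : X0) (m : ℕ) (r : ℕ → Bool) : X0 :=
  fun j => if j < m then x j else if j = m then none else e r (j - (m + 1))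

/-- Members of the base. -/
noncomputable def V (x : X0) (m : ℕ) (r : ℕ → Bool) : Set Z :=
  (cyl (Function.update x m (some r)) (m + 1) ∪ cyl (Function.update x m none) (m + 1)) \
    Sx (pt x m r)

theorem isOpen_V (x : X0) (m : ℕ) (r : ℕ → Bool) : IsOpen (V x m r) :=
  ((isOpen_cyl _ _).union (isOpen_cyl _ _)).sdiff (isClosed_Sx _)

theorem V_congr {x y : X0} {m : ℕ} (h : ∀ j < m, x j = y j) (r : ℕ → Bool) :
    V x m r = V y m r := by
  have h1 : ∀ k : K, cyl (Function.update x m k) (m + 1) = cyl (Function.update y m k) (m + 1) := by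
    intro k
    apply cyl_congr
    intro j hj
    by_cases hjm : j = m
    · subst hjm; simp
    · simp only [Function.update_of_ne hjm]
      exact h j (by omega)
  have h2 : pt x m r = pt y m r := by
    funext j
    simp only [pt]
    by_cases hj : j < m
    · simp [hj, h j hj]
    · simp [hj]
  unfold V
  rw [h1, h1, h2]

theorem V_sub (x : X0) (m : ℕ) (r : ℕ → Bool) : V x m r ⊆ cyl x m := by
  rintro p ⟨hp | hp, _⟩
  · have := cyl_anti (Nat.le_succ m) hp
    rwa [cyl_congr (y := Function.update x m (some r)) (x := x)] at this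
    intro j hj
    exact Function.update_of_ne (by omega) _ _
  · have := cyl_anti (Nat.le_succ m) hp
    rwa [cyl_congr (y := Function.update x m none) (x := x)] at this
    intro j hj
    exact Function.update_of_ne (by omega) _ _

/-- The base. -/
def Bs : Set (Set Z) := {U | (∃ x m r, U = V x m r) ∨ (IsOpen U ∧ ∀ x, L x ∉ U)}

theorem Sx_empty {x : X0} (hx : ¬ Irr x) : Sx x = ∅ := by
  ext p
  simp only [mem_empty_iff_false, iff_false]
  rintro ⟨_, _, _, h, _⟩
  exact hx h

theorem isBasis : IsTopologicalBasis Bs := by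
  refine isTopologicalBasis_of_isOpen_of_nhds ?_ ?_
  · rintro U (⟨x, m, r, rfl⟩ | ⟨h, _⟩)
    · exact isOpen_V x m r
    · exact h
  · intro p U hp hU
    rcases Z_cases p with ⟨x, rfl⟩ | ⟨σ, q, rfl⟩
    · obtain ⟨n, hn⟩ := (isOpen_iff'.1 hU).1 x hp
      by_cases hx : Irr x
      · obtain ⟨m, hm, hxm⟩ := hx n
        obtain ⟨r, hr⟩ := e_surj (fun j => x (m + 1 + j))
        have hpt : pt x m r = x := by
          funext j
          simp only [pt, hr]
          by_cases hj : j < m
          · simp [hj]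
          · by_cases hj' : j = m
            · subst hj'; simp [hxm]
            · simp only [hj, hj', if_false]
              congr 1
              omega
        refine ⟨V x m r, Or.inl ⟨x, m, r, rfl⟩, ⟨Or.inr ?_, L_notMem_Sx⟩, ?_⟩
        · refine mem_cyl_L.2 fun j hj => ?_
          by_cases hjm : j = m
          · subst hjm; simp [hxm]
          · rw [Function.update_of_ne hjm]
        · intro p hp
          refine hn ⟨cyl_anti hm (V_sub x m r hp), ?_⟩
          have := hp.2
          rwa [hpt] at this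
      · have hx' : ∃ M, ∀ m, M ≤ m → x m ≠ none := by
          unfold Irr at hx
          push Not at hx
          exact hx
        obtain ⟨M, hM⟩ := hx'
        obtain ⟨r, hr⟩ := Option.ne_none_iff_exists'.1 (hM (max M n) (le_max_left _ _))
        refine ⟨V x (max M n) r, Or.inl ⟨x, _, r, rfl⟩, ⟨Or.inl ?_, L_notMem_Sx⟩, ?_⟩
        · refine mem_cyl_L.2 fun j hj => ?_
          by_cases hjm : j = max M n
          · subst hjm; simp [hr]
          · rw [Function.update_of_ne hjm]
        · intro p hp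
          refine hn ⟨cyl_anti (le_max_right _ _) (V_sub x _ r hp), ?_⟩
          rw [Sx_empty hx]
          exact notMem_empty _
    · refine ⟨U ∩ {p | ∃ τ r, p = R τ r}, Or.inr ⟨?_, ?_⟩, ⟨hp, σ, q, rfl⟩, inter_subset_left⟩
      · rw [isOpen_iff']
        refine ⟨?_, fun τ => ?_⟩
        · rintro x ⟨_, τ, r, h⟩
          exact (L_ne_R h).elim
        · convert (isOpen_iff'.1 hU).2 τ using 1
          ext r
          simp only [mem_ofPred_eq, mem_inter_iff, and_iff_left_iff_imp]
          exact fun _ => ⟨τ, r, rfl⟩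
      · rintro x ⟨_, τ, r, h⟩
        exact L_ne_R h

theorem main (B0 B1 : Set (Set Z)) (hU : B0 ∪ B1 = Bs) (hd : Disjoint B0 B1)
    (h0 : IsTopologicalBasis B0) (h1 : IsTopologicalBasis B1) : False := by
  classical
  -- the choice of the next letter
  have hG : ∀ (x : X0) (m : ℕ), ∃ k : K, (k = none → ∀ r, V x m r ∈ B0) ∧
      ∀ r, k = some r → V x m r ∉ B0 := by
    intro x m
    by_cases h : ∀ r, V x m r ∈ B0
    · exact ⟨none, fun _ => h, fun r hr => by cases hr⟩
    · push Not at h
      obtain ⟨r, hr⟩ := h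
      refine ⟨some r, fun h => (by cases h), fun r' h => ?_⟩
      have : r = r' := Option.some.inj h
      exact this ▸ hr
  choose G hG1 hG2 using hG
  let f : ℕ → X0 := fun n => Nat.rec (fun _ => none) (fun m g => Function.update g m (G g m)) n
  have f_succ : ∀ m, f (m + 1) = Function.update (f m) m (G (f m) m) := fun m => rfl
  have f_stab : ∀ j m, j < m → f m j = f (j + 1) j := by
    intro j m hjm
    induction hjm with
    | refl => rfl
    | step h ih =>
      rename_i m'
      rw [f_succ, Function.update_of_ne (by have := Nat.lt_of_succ_le h; omega)]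
      exact ih
  let z : X0 := fun m => f (m + 1) m
  have hz : ∀ m, z m = G (f m) m := by
    intro m
    show f (m + 1) m = _
    rw [f_succ, Function.update_self]
  have hzV : ∀ m r, V z m r = V (f m) m r := by
    intro m r
    apply V_congr
    intro j hj
    exact (f_stab j m hj).symm
  have hz0 : ∀ m, z m = none → ∀ r, V z m r ∈ B0 := by
    intro m hm r
    rw [hzV]
    exact hG1 _ _ (by rw [← hz, hm]) r
  have hz1 : ∀ m r, z m = some r → V z m r ∉ B0 := by
    intro m r hm
    rw [hzV]
    exact hG2 _ _ r (by rw [← hz, hm])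
  by_cases hirr : Irr z
  · -- `B1` fails at `z`
    obtain ⟨B, hB, hzB, hBs⟩ := h1.exists_subset_of_mem_open (mem_self z 0)
      ((isOpen_cyl z 0).sdiff (isClosed_Sx z))
    have hBB : B ∈ Bs := hU ▸ Or.inr hB
    rcases hBB with ⟨x, m, r, rfl⟩ | ⟨_, h⟩
    swap
    · exact h z hzB
    rcases hzB.1 with hzB | hzB
    · -- a point of `Sx z` in `V x m r`
      have hag := mem_cyl_L.1 hzB
      have hzm : z m = some r := by
        rw [hag m (by omega)]; simp
      let σ : Om := ⟨m + 1, fun j => res (m + 1) (z j)⟩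
      have hσ1 : R σ 0 ∈ Sx z := mem_Sx_R.2 ⟨hirr, fun j => rfl⟩
      have hσ2 : R σ 0 ∈ V x m r := by
        refine ⟨Or.inl (mem_cyl_R.2 ⟨le_rfl, fun j hj => ?_⟩), ?_⟩
        · show res (m + 1) (z j) = _
          rw [hag j hj]
        · rw [mem_Sx_R]
          rintro ⟨_, h⟩
          have := h ⟨m, by simp [σ]⟩
          simp only [σ, pt, lt_irrefl, if_false, if_true, hzm, res] at this
          simp at this
      exact (hBs hσ2).2 hσ1
    · have hag := mem_cyl_L.1 hzB
      have hzm : z m = none := by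
        rw [hag m (by omega)]; simp
      have hVV : V x m r = V z m r := by
        apply V_congr
        intro j hj
        rw [hag j (by omega), Function.update_of_ne (by omega)]
      rw [hVV] at hB
      exact Set.disjoint_left.1 hd (hz0 m hzm r) hB
  · -- `B0` fails at `z`
    have hx' : ∃ M, ∀ m, M ≤ m → z m ≠ none := by
      unfold Irr at hirr
      push Not at hirr
      exact hirr
    obtain ⟨M, hM⟩ := hx'
    obtain ⟨B, hB, hzB, hBs⟩ := h0.exists_subset_of_mem_open (mem_cyl_L.2 fun _ _ => rfl :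
      L z ∈ cyl z M) (isOpen_cyl z M)
    have hBB : B ∈ Bs := hU ▸ Or.inl hB
    rcases hBB with ⟨x, m, r, rfl⟩ | ⟨_, h⟩
    swap
    · exact h z hzB
    have hu1 : L (Function.update x m (some r)) ∈ cyl z M :=
      hBs ⟨Or.inl (mem_cyl_L.2 fun _ _ => rfl), L_notMem_Sx⟩
    have hu2 : L (Function.update x m none) ∈ cyl z M :=
      hBs ⟨Or.inr (mem_cyl_L.2 fun _ _ => rfl), L_notMem_Sx⟩
    have hmM : M ≤ m := by
      by_contra hlt
      push Not at hlt
      have e1 := mem_cyl_L.1 hu1 m hlt
      have e2 := mem_cyl_L.1 hu2 m hlt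
      rw [Function.update_self] at e1 e2
      rw [← e2] at e1
      cases e1
    rcases hzB.1 with hzB | hzB
    · have hag := mem_cyl_L.1 hzB
      have hzm : z m = some r := by
        rw [hag m (by omega)]; simp
      have hVV : V x m r = V z m r := by
        apply V_congr
        intro j hj
        rw [hag j (by omega), Function.update_of_ne (by omega)]
      rw [hVV] at hB
      exact hz1 m r hzm hB
    · have hag := mem_cyl_L.1 hzB
      have hzm : z m = none := by
        rw [hag m (by omega)]; simp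
      exact hM m hmM hzm

/-- There is a separable `T3` space without isolated points which has a base that cannot be
partitioned into two bases. -/
theorem result : ∃ (X : Type) (_ : TopologicalSpace X), T3Space X ∧ SeparableSpace X ∧
    (∀ x : X, ¬ IsOpen ({x} : Set X)) ∧
    ∃ B : Set (Set X), IsTopologicalBasis B ∧
      ∀ B0 B1 : Set (Set X), B0 ∪ B1 = B → Disjoint B0 B1 →
        ¬ (IsTopologicalBasis B0 ∧ IsTopologicalBasis B1) :=
  ⟨Z, inferInstance, inferInstance, inferInstance, perfect, Bs, isBasis,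
    fun B0 B1 hU hd h => main B0 B1 hU hd h.1 h.2⟩

end Pool.Agent.Results.MP_12e723_gt.SeparableCounterexample
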